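import Pool.Agent.helper17.MK.All
import Pool.Agent.helper11.MK.Defs

/-!
# Two primes in four clusters (MP_bf63dc_nt)
-/

namespace Pool.Agent.helper85.FD

/-- Two primes in four clusters, admissible forms. -/
theorem cm4 : Pool.Agent.helper11.MK.CM4_stmt := Pool.Agent.MK.FM_all

end Pool.Agent.helper85.FD
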