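import Pool.Agent.helper74.FD.SpecF

set_option autoImplicit false

open MeasureTheory Filter Set
open scoped ContDiff Topology ComplexConjugate

namespace Pool.Agent.FD

/-- the tail integral of `1/x²` to the right -/
theorem QUH_tail (f : ℝ → ℝ) (X : ℝ) (hX : 0 < X) (hf : IntegrableOn f (Ioi X)) (h : ∀ x, X < x → f x ≤ x ^ (-2 : ℝ)) :
    ∫ x in Ioi X, f x ≤ 1 / X := by
  have h1 : IntegrableOn (fun x : ℝ => x ^ (-2 : ℝ)) (Ioi X) := integrableOn_Ioi_rpow_of_lt (by norm_num) hX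
  have h2 : ∫ x in Ioi X, f x ≤ ∫ x in Ioi X, x ^ (-2 : ℝ) :=
    setIntegral_mono_on hf h1 measurableSet_Ioi (fun x hx => h x hx)
  rw [integral_Ioi_rpow_of_lt (by norm_num) hX] at h2
  have h3 : -X ^ ((-2 : ℝ) + 1) / ((-2 : ℝ) + 1) = 1 / X := by
    have : ((-2 : ℝ) + 1) = -1 := by norm_num
    rw [this, Real.rpow_neg_one]
    field_simp
  rw [h3] at h2
  exact h2

/-- the whole integral -/
theorem QUH_int (f : ℝ → ℝ) (X M : ℝ) (hX : 0 < X) (hf : Integrable f) (h1 : ∀ x, |x| ≤ X → f x ≤ M)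
    (h2 : ∀ x, X < |x| → f x ≤ |x| ^ (-2 : ℝ)) : ∫ x, f x ≤ 2 * X * M + 2 / X := by
  have e1 : ∫ x, f x = (∫ x in Iic X, f x) + ∫ x in Ioi X, f x :=
    (intervalIntegral.integral_Iic_add_Ioi hf.integrableOn hf.integrableOn).symm
  have e2 : (∫ x in Iic X, f x) = (∫ x in Iic (-X), f x) + ∫ x in (-X)..X, f x := by
    have := intervalIntegral.integral_Iic_sub_Iic (a := -X) (b := X) hf.integrableOn hf.integrableOn
    linarith
  have t1 : ∫ x in Ioi X, f x ≤ 1 / X := by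
    refine QUH_tail f X hX hf.integrableOn fun x hx => ?_
    have := h2 x (lt_of_lt_of_le hx (le_abs_self x))
    rwa [abs_of_pos (hX.trans hx)] at this
  have t2 : ∫ x in Iic (-X), f x ≤ 1 / X := by
    rw [← integral_comp_neg_Ioi]
    refine QUH_tail (fun x => f (-x)) X hX (hf.comp_neg).integrableOn fun x hx => ?_
    have := h2 (-x) (by rw [abs_neg]; exact lt_of_lt_of_le hx (le_abs_self x))
    rwa [abs_neg, abs_of_pos (hX.trans hx)] at this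
  have t3 : ∫ x in (-X)..X, f x ≤ 2 * X * M := by
    have h3 : ∫ x in (-X)..X, f x ≤ ∫ x in (-X)..X, M := by
      refine intervalIntegral.integral_mono_on (by linarith) hf.intervalIntegrable (by simp) fun x hx => ?_
      exact h1 x (abs_le.2 ⟨hx.1, hx.2⟩)
    rw [intervalIntegral.integral_const, smul_eq_mul] at h3
    nlinarith [h3]
  rw [e1, e2]
  have : 2 / X = 1 / X + 1 / X := by ring
  rw [this]
  linarith

/-- the gaps -/
theorem QUH_gaps (ν L : ℝ) (k n : ℕ) (S : Set ℝ) (hp : Por ν L S) (hk : L ≤ 2 ^ k) :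
    ∃ c ρ : ℕ → ℝ, Gaps ν k n c ρ ∧ ∀ i < n, ∀ ξ ∈ S, ¬ (c i - ρ i ≤ -ξ ∧ -ξ ≤ c i + ρ i) := by
  have key : ∀ i : ℕ, ∃ c' : ℝ, -(2 : ℝ) ^ (k + 2 * i + 1) ≤ c' ∧ c' + ν * 2 ^ (k + 2 * i) ≤ -(2 : ℝ) ^ (k + 2 * i) ∧
      ∀ x ∈ S, ¬ (c' ≤ x ∧ x ≤ c' + ν * 2 ^ (k + 2 * i)) := by
    intro i
    have hlen : -(2 : ℝ) ^ (k + 2 * i) - -(2 : ℝ) ^ (k + 2 * i + 1) = 2 ^ (k + 2 * i) := by
      rw [pow_succ]; ring
    have hge : (2 : ℝ) ^ k ≤ 2 ^ (k + 2 * i) := pow_le_pow_right₀ (by norm_num) (by omega)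
    obtain ⟨c', h1, h2, h3⟩ := hp (-(2 : ℝ) ^ (k + 2 * i + 1)) (-(2 : ℝ) ^ (k + 2 * i)) (by rw [hlen]; linarith)
    rw [hlen] at h2 h3
    exact ⟨c', h1, h2, h3⟩
  choose c' h1 h2 h3 using key
  refine ⟨fun i => -(c' i + ν * 2 ^ (k + 2 * i) / 2), fun i => ν * 2 ^ (k + 2 * i) / 2, ⟨?_, ?_, ?_⟩, ?_⟩
  · intro i _; rfl
  · intro i _
    have := h2 i
    show (2 : ℝ) ^ (k + 2 * i) ≤ -(c' i + ν * 2 ^ (k + 2 * i) / 2) - ν * 2 ^ (k + 2 * i) / 2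
    linarith
  · intro i _
    have := h1 i
    show -(c' i + ν * 2 ^ (k + 2 * i) / 2) + ν * 2 ^ (k + 2 * i) / 2 ≤ (2 : ℝ) ^ (k + 2 * i + 1)
    linarith
  · intro i _ ξ hξ hh
    have hh1 : -(c' i + ν * 2 ^ (k + 2 * i) / 2) - ν * 2 ^ (k + 2 * i) / 2 ≤ -ξ := hh.1
    have hh2 : -ξ ≤ -(c' i + ν * 2 ^ (k + 2 * i) / 2) + ν * 2 ^ (k + 2 * i) / 2 := hh.2
    exact h3 i ξ hξ ⟨by linarith, by linarith⟩

theorem QUH_proof (hHUP : HUP_stmt) (hHSM : HSM_stmt) (hQUP : QUP_stmt) : QUH_stmt := by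
  intro ν L a η hν hν1 ha hη
  set E : ℝ := Real.exp (2048 * Real.pi) with hE
  have hE0 : 0 < E := Real.exp_pos _
  set X0 : ℝ := max 1 (4 * E / η) with hX0
  have hX1 : 1 ≤ X0 := le_max_left _ _
  have hXp : 0 < X0 := by linarith
  have hX2 : 4 * E / η ≤ X0 := le_max_right _ _
  have hX3 : E * (2 / X0) ≤ η / 2 := by
    rw [div_le_iff₀ hη] at hX2
    rw [mul_div_assoc', div_le_div_iff₀ hXp (by norm_num)]
    nlinarith
  obtain ⟨k, hk⟩ := pow_unbounded_of_one_lt (max (X0 + 256) (max L (16 / ν))) (one_lt_two : (1 : ℝ) < 2)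
  have hk1 : X0 + 256 ≤ 2 ^ k := (le_max_left _ _).trans hk.le
  have hk2 : L ≤ 2 ^ k := ((le_max_left _ _).trans (le_max_right _ _)).trans hk.le
  have hk3 : 16 / ν ≤ 2 ^ k := ((le_max_right _ _).trans (le_max_right _ _)).trans hk.le
  have hk4 : 8 ≤ ν * 2 ^ k / 2 := by
    rw [div_le_iff₀ hν] at hk3
    nlinarith
  set δ : ℝ := η / (16 * E * X0) with hδ
  have hδ0 : 0 < δ := by positivity
  obtain ⟨n, hn⟩ : ∃ n : ℕ, 2 * (Real.pi * a / 12 * (34 - n * ν ^ 2 * (2 / 25))) ≤ Real.log δ := by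
    obtain ⟨n, hn⟩ := exists_nat_ge ((34 - Real.log δ / (2 * (Real.pi * a / 12))) / (ν ^ 2 * (2 / 25)))
    refine ⟨n, ?_⟩
    have hc : 0 < 2 * (Real.pi * a / 12) := by have := Real.pi_pos; positivity
    rw [div_le_iff₀ (by positivity)] at hn
    have h1 : 34 - n * ν ^ 2 * (2 / 25) ≤ Real.log δ / (2 * (Real.pi * a / 12)) := by nlinarith
    rw [le_div_iff₀ hc] at h1
    nlinarith
  set M : ℝ := 2 * Real.exp (Real.pi * a / 12 * (34 - n * ν ^ 2 * (2 / 25))) with hM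
  have hM2 : E * (2 * X0 * M ^ 2) ≤ η / 2 := by
    have h1 : M ^ 2 = 4 * Real.exp (2 * (Real.pi * a / 12 * (34 - n * ν ^ 2 * (2 / 25)))) := by
      rw [hM, mul_pow, ← Real.exp_nat_mul]
      norm_num
    have h2 : Real.exp (2 * (Real.pi * a / 12 * (34 - n * ν ^ 2 * (2 / 25)))) ≤ δ := by
      calc _ ≤ Real.exp (Real.log δ) := Real.exp_le_exp.2 hn
        _ = δ := Real.exp_log hδ0
    rw [h1]
    calc E * (2 * X0 * (4 * Real.exp (2 * (Real.pi * a / 12 * (34 - n * ν ^ 2 * (2 / 25))))))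
        ≤ E * (2 * X0 * (4 * δ)) := by gcongr
      _ = η / 2 := by rw [hδ]; field_simp; norm_num
  set ρm : ℝ := ν * 2 ^ (k + 2 * n) / 2 with hρm
  refine ⟨Real.exp (-(Real.pi * a * ρm / 3)) ^ 2 / a, by positivity, ?_⟩
  intro S m hS hm hc hms hN hk0
  obtain ⟨c, ρ, hG, hgap⟩ := QUH_gaps ν L k n S hS hk2
  have hsq : ∀ i < n, Real.sqrt (a * ∫ s in (0 : ℝ)..a, ‖fti m s‖ ^ 2) ≤ Real.exp (-(Real.pi * a * ρ i / 3)) := by
    intro i hi
    have h1 : a * ∫ s in (0 : ℝ)..a, ‖fti m s‖ ^ 2 ≤ Real.exp (-(Real.pi * a * ρm / 3)) ^ 2 := by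
      calc a * ∫ s in (0 : ℝ)..a, ‖fti m s‖ ^ 2 ≤ a * (Real.exp (-(Real.pi * a * ρm / 3)) ^ 2 / a) :=
            mul_le_mul_of_nonneg_left hk0 ha.le
        _ = _ := by field_simp
    have h2 : ρ i ≤ ρm := by
      rw [hG.size i hi, hρm]
      have : (2 : ℝ) ^ (k + 2 * i) ≤ 2 ^ (k + 2 * n) := pow_le_pow_right₀ (by norm_num) (by omega)
      nlinarith
    calc Real.sqrt (a * ∫ s in (0 : ℝ)..a, ‖fti m s‖ ^ 2) ≤ Real.sqrt (Real.exp (-(Real.pi * a * ρm / 3)) ^ 2) :=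
          Real.sqrt_le_sqrt h1
      _ = Real.exp (-(Real.pi * a * ρm / 3)) := Real.sqrt_sq (Real.exp_pos _).le
      _ ≤ _ := by
          apply Real.exp_le_exp.2
          have : Real.pi * a * ρ i ≤ Real.pi * a * ρm := mul_le_mul_of_nonneg_left h2 (by have := Real.pi_pos; positivity)
          linarith
  have hsmall : ∀ x : ℝ, |x| ≤ X0 → ‖Hf m (x + 256 * Complex.I)‖ ^ 2 ≤ M ^ 2 := by
    intro x hx
    have := hHSM m a ν x k n c ρ hm hc hN ha hν hν1 hG hk4 (fun i hi ξ hξ => hgap i hi ξ (hms ξ hξ)) hsq (by linarith)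
    exact pow_le_pow_left₀ (norm_nonneg _) this 2
  have hlarge : ∀ x : ℝ, X0 < |x| → ‖Hf m (x + 256 * Complex.I)‖ ^ 2 ≤ |x| ^ (-2 : ℝ) := by
    intro x hx
    have hx0 : 0 < |x| := hXp.trans hx
    have him : ((x : ℂ) + 256 * Complex.I).im = 256 := by simp
    have hre : ((x : ℂ) + 256 * Complex.I).re = x := by simp
    have h1 := (hHUP m hm hc hN).2.2.1 ((x : ℂ) + 256 * Complex.I) (by rw [him]; norm_num)
    have h2 : |x| ≤ ‖(x : ℂ) + 256 * Complex.I‖ := by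
      have := Complex.abs_re_le_norm ((x : ℂ) + 256 * Complex.I)
      rwa [hre] at this
    have h3 : 1 / (2 * Real.pi * ‖(x : ℂ) + 256 * Complex.I‖) ≤ 1 / |x| := by
      apply one_div_le_one_div_of_le hx0
      have hp : 1 ≤ 2 * Real.pi := by have := Real.pi_gt_three; linarith
      calc |x| = 1 * |x| := by ring
        _ ≤ 2 * Real.pi * ‖(x : ℂ) + 256 * Complex.I‖ := mul_le_mul hp h2 hx0.le (by linarith)
    have h4 : ‖Hf m (x + 256 * Complex.I)‖ ^ 2 ≤ (1 / |x|) ^ 2 := pow_le_pow_left₀ (norm_nonneg _) (h1.trans h3) 2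
    have h5 : |x| ^ (-2 : ℝ) = (1 / |x|) ^ 2 := by
      rw [Real.rpow_neg hx0.le, one_div, inv_pow]
      norm_num
    rw [h5]
    exact h4
  obtain ⟨hI, hQ⟩ := hQUP m hm hc hN
  have hint := QUH_int (fun x : ℝ => ‖Hf m (x + 256 * Complex.I)‖ ^ 2) X0 (M ^ 2) hXp hI hsmall hlarge
  calc ∫ s in (0 : ℝ)..2, ‖fti m s‖ ^ 2 ≤ E * ∫ x : ℝ, ‖Hf m (x + 256 * Complex.I)‖ ^ 2 := hQ
    _ ≤ E * (2 * X0 * M ^ 2 + 2 / X0) := mul_le_mul_of_nonneg_left hint hE0.le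
    _ = E * (2 * X0 * M ^ 2) + E * (2 / X0) := by ring
    _ ≤ η / 2 + η / 2 := add_le_add hM2 hX3
    _ = η := by ring

end Pool.Agent.FD
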