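import Pool.Agent.helper85.FD.Shifts
import Pool.Agent.helper85.FC.CaseDefs
import Mathlib.Combinatorics.SimpleGraph.Extremal.Turan

/-!
# Four coefficients (MP_bf63dc_nt): corollaries
-/

namespace Pool.Agent.helper85.FD

open Finset Pool.Agent.helper85.FC Pool.Agent.helper11.MK

theorem large_sol {a b : ℕ} {c : ℤ} (hb : 0 < b)
    (h : {pq : ℕ × ℕ | pq.1.Prime ∧ pq.2.Prime ∧ (a : ℤ) * pq.1 - b * pq.2 = c}.Infinite)
    (ha : 0 < a) (N : ℕ) :
    ∃ p q : ℕ, p.Prime ∧ q.Prime ∧ (a : ℤ) * p - b * q = c ∧ N < p ∧ N < q := by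
  have hinj : Set.InjOn Prod.fst
      {pq : ℕ × ℕ | pq.1.Prime ∧ pq.2.Prime ∧ (a : ℤ) * pq.1 - b * pq.2 = c} := by
    rintro ⟨p, q⟩ ⟨-, -, h1⟩ ⟨p', q'⟩ ⟨-, -, h2⟩ h3
    simp only at h1 h2 h3
    subst h3
    have h4 : (b : ℤ) * q = b * q' := by linarith
    have h5 : (b : ℤ) ≠ 0 := by exact_mod_cast hb.ne'
    have h6 : (q : ℤ) = q' := mul_left_cancel₀ h5 h4
    have h7 : q = q' := by exact_mod_cast h6
    rw [h7]
  obtain ⟨p, ⟨⟨p', q⟩, ⟨hp, hq, hpq⟩, rfl⟩, hlt⟩ := (h.image hinj).exists_gt (b * N + c.natAbs + N)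
  simp only at hp hq hpq hlt
  refine ⟨p', q, hp, hq, hpq, by omega, ?_⟩
  by_contra hc
  push Not at hc
  have h1 : (b : ℤ) * q ≤ b * N := by
    have : b * q ≤ b * N := Nat.mul_le_mul_left b hc
    exact_mod_cast this
  have h2 : (p' : ℤ) ≤ a * p' := by
    have : p' ≤ a * p' := Nat.le_mul_of_pos_left p' ha
    exact_mod_cast this
  have h3 : ((b * N + c.natAbs + N : ℕ) : ℤ) < p' := by exact_mod_cast hlt
  push_cast at h3
  have h4 : c ≤ |c| := le_abs_self c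
  have h5 : (0 : ℤ) ≤ N := Int.natCast_nonneg N
  omega

theorem trueCase_of {a b : ℕ} {c : ℤ} (ha : 0 < a) (hb : 0 < b) (hab : Nat.Coprime a b)
    (hc : c ≠ 0)
    (h : {pq : ℕ × ℕ | pq.1.Prime ∧ pq.2.Prime ∧ (a : ℤ) * pq.1 - b * pq.2 = c}.Infinite) :
    TrueCase a b c := by
  obtain ⟨p, q, hp, hq, hpq, hpN, hqN⟩ := large_sol hb h ha (a + b + 2)
  have key : ∀ ℓ : ℕ, ℓ.Prime → (ℓ : ℤ) ∣ c → ¬ ℓ ∣ a ∧ ¬ ℓ ∣ b := by
    intro ℓ hℓ hℓc
    constructor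
    · intro hℓa
      have h1 : (ℓ : ℤ) ∣ (b : ℤ) * q := by
        have h2 : (ℓ : ℤ) ∣ (a : ℤ) * p := (Int.natCast_dvd_natCast.2 hℓa).mul_right _
        have h3 : (b : ℤ) * q = a * p - c := by linarith
        rw [h3]
        exact dvd_sub h2 hℓc
      have h2 : ℓ ∣ b * q := by exact_mod_cast h1
      rcases hℓ.dvd_mul.1 h2 with h3 | h3
      · exact Nat.Prime.one_lt hℓ |>.ne' (Nat.dvd_one.1 (hab ▸ Nat.dvd_gcd hℓa h3))
      · have h4 := (Nat.prime_dvd_prime_iff_eq hℓ hq).1 h3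
        have h5 := Nat.le_of_dvd ha hℓa
        omega
    · intro hℓb
      have h1 : (ℓ : ℤ) ∣ (a : ℤ) * p := by
        have h2 : (ℓ : ℤ) ∣ (b : ℤ) * q := (Int.natCast_dvd_natCast.2 hℓb).mul_right _
        have h3 : (a : ℤ) * p = b * q + c := by linarith
        rw [h3]
        exact dvd_add h2 hℓc
      have h2 : ℓ ∣ a * p := by exact_mod_cast h1
      rcases hℓ.dvd_mul.1 h2 with h3 | h3
      · exact Nat.Prime.one_lt hℓ |>.ne' (Nat.dvd_one.1 (hab ▸ Nat.dvd_gcd h3 hℓb))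
      · have h4 := (Nat.prime_dvd_prime_iff_eq hℓ hp).1 h3
        have h5 := Nat.le_of_dvd hb hℓb
        omega
  have hcop : ∀ x : ℕ, (∀ ℓ : ℕ, ℓ.Prime → (ℓ : ℤ) ∣ c → ¬ ℓ ∣ x) → IsCoprime (x : ℤ) c := by
    intro x hx
    rw [Int.isCoprime_iff_gcd_eq_one]
    show Nat.gcd (x : ℤ).natAbs c.natAbs = 1
    rw [Int.natAbs_natCast]
    exact Nat.coprime_of_dvd fun ℓ hℓ h1 h2 => hx ℓ hℓ (Int.natCast_dvd.2 h2) h1
  refine ⟨ha, hb, hc, hab, hcop a fun ℓ h1 h2 => (key ℓ h1 h2).1,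
    hcop b fun ℓ h1 h2 => (key ℓ h1 h2).2, ?_, h⟩
  rintro ⟨hoa, hob, hoc⟩
  have hop : Odd (p : ℤ) := by
    have := hp.odd_of_ne_two (by omega)
    exact_mod_cast this
  have hoq : Odd (q : ℤ) := by
    have := hq.odd_of_ne_two (by omega)
    exact_mod_cast this
  have hoa' : Odd (a : ℤ) := by exact_mod_cast hoa
  have hob' : Odd (b : ℤ) := by exact_mod_cast hob
  have h1 : Even ((a : ℤ) * p - b * q) := (hoa'.mul hop).sub_odd (hob'.mul hoq)
  rw [hpq] at h1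
  exact (Int.not_even_iff_odd.2 hoc) h1

theorem trueCase_symm {a b : ℕ} {c : ℤ} (h : TrueCase a b c) : TrueCase b a (-c) := by
  obtain ⟨ha, hb, hc, hab, hac, hbc, hodd, hinf⟩ := h
  refine trueCase_of hb ha hab.symm (neg_ne_zero.2 hc) ?_
  have h1 := hinf.image (f := Prod.swap) (Prod.swap_injective.injOn)
  refine h1.mono ?_
  rintro _ ⟨⟨p, q⟩, ⟨hp, hq, hpq⟩, rfl⟩
  refine ⟨hq, hp, ?_⟩
  simp only [Prod.fst_swap, Prod.snd_swap] at hpq ⊢
  linarith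

/-- dividing by the greatest common divisor -/
theorem reduce {x y : ℕ} (hx : 0 < x) (hy : 0 < y) {h h' : ℤ} (hne : (x : ℤ) * h ≠ y * h')
    (hinf : {pq : ℕ × ℕ | pq.1.Prime ∧ pq.2.Prime ∧ (x : ℤ) * (pq.1 - h) = y * (pq.2 - h')}.Infinite) :
    TrueCase (x / Nat.gcd x y) (y / Nat.gcd x y)
      (((x / Nat.gcd x y : ℕ) : ℤ) * h - ((y / Nat.gcd x y : ℕ) : ℤ) * h') := by
  have hg : 0 < Nat.gcd x y := Nat.gcd_pos_of_pos_left y hx
  have hx' : (x : ℤ) = (Nat.gcd x y : ℕ) * ((x / Nat.gcd x y : ℕ) : ℤ) := by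
    exact_mod_cast (Nat.mul_div_cancel' (Nat.gcd_dvd_left x y)).symm
  have hy' : (y : ℤ) = (Nat.gcd x y : ℕ) * ((y / Nat.gcd x y : ℕ) : ℤ) := by
    exact_mod_cast (Nat.mul_div_cancel' (Nat.gcd_dvd_right x y)).symm
  have hg0 : ((Nat.gcd x y : ℕ) : ℤ) ≠ 0 := by exact_mod_cast hg.ne'
  refine trueCase_of (Nat.div_pos (Nat.gcd_le_left y hx) hg) (Nat.div_pos (Nat.gcd_le_right x hy) hg)
    (Nat.coprime_div_gcd_div_gcd hg) ?_ (hinf.mono ?_)
  · intro h0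
    apply hne
    calc (x : ℤ) * h = (Nat.gcd x y : ℕ) * (((x / Nat.gcd x y : ℕ) : ℤ) * h) := by
          rw [← mul_assoc, ← hx']
      _ = (Nat.gcd x y : ℕ) * (((y / Nat.gcd x y : ℕ) : ℤ) * h') := by rw [sub_eq_zero.1 h0]
      _ = y * h' := by rw [← mul_assoc, ← hy']
  · rintro ⟨p, q⟩ ⟨hp, hq, hpq⟩
    refine ⟨hp, hq, ?_⟩
    simp only at hpq ⊢
    refine mul_left_cancel₀ hg0 ?_
    calc ((Nat.gcd x y : ℕ) : ℤ) * (((x / Nat.gcd x y : ℕ) : ℤ) * p - ((y / Nat.gcd x y : ℕ) : ℤ) * q)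
        = ((Nat.gcd x y : ℕ) * ((x / Nat.gcd x y : ℕ) : ℤ)) * p
          - ((Nat.gcd x y : ℕ) * ((y / Nat.gcd x y : ℕ) : ℤ)) * q := by ring
      _ = x * p - y * q := by rw [← hx', ← hy']
      _ = x * h - y * h' := by linarith
      _ = ((Nat.gcd x y : ℕ) * ((x / Nat.gcd x y : ℕ) : ℤ)) * h
          - ((Nat.gcd x y : ℕ) * ((y / Nat.gcd x y : ℕ) : ℤ)) * h' := by rw [← hx', ← hy']
      _ = _ := by ring

theorem small_symm {m : ℕ} {X : ℝ} {a b : ℕ} (h : Small m X a b) : Small m X b a := by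
  obtain ⟨c, hc, hm, ht⟩ := h
  refine ⟨-c, ?_, (dvd_neg).2 hm, trueCase_symm ht⟩
  push_cast
  rwa [abs_neg]

theorem ample_symm {δ : ℝ} {a b : ℕ} (h : Ample δ a b) : Ample δ b a := by
  intro X₀
  obtain ⟨X, hX, hc⟩ := h X₀
  refine ⟨X, hX, hc.trans (le_of_eq ?_)⟩
  congr 1
  have : {c : ℤ | |(c : ℝ)| ≤ X ∧ TrueCase b a c}
      = (fun c => -c) '' {c : ℤ | |(c : ℝ)| ≤ X ∧ TrueCase a b c} := by
    ext c
    constructor
    · rintro ⟨h1, h2⟩
      refine ⟨-c, ⟨?_, trueCase_symm h2⟩, neg_neg c⟩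
      push_cast
      rwa [abs_neg]
    · rintro ⟨d, ⟨h1, h2⟩, rfl⟩
      refine ⟨?_, trueCase_symm h2⟩
      push_cast
      rwa [abs_neg]
  rw [this, Set.ncard_image_of_injective _ neg_injective]

theorem lowest_symm {R : ℕ → ℕ → Prop} (hR : ∀ a b, R a b → R b a) {a b : ℕ}
    (h : Lowest R a b) : Lowest R b a := by
  unfold Lowest at h ⊢
  rw [Nat.gcd_comm b a]
  exact hR _ _ h

/-- `c` divisible by `m` and small -/
theorem small_four (h4 : CM4_stmt) : ∃ C : ℝ, 0 < C ∧ ∀ (m A : ℕ) (a : Fin 4 → ℕ), 0 < m → 2 ≤ A →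
    Function.Injective a → (∀ j, 0 < a j) → (∀ j, a j ≤ A) → (∀ j, Nat.Coprime (a j) m) →
    ∃ i j, i ≠ j ∧ Lowest (Small m (C * m * A * Real.log A)) (a i) (a j) := by
  obtain ⟨K, hK⟩ := four_shifts h4
  obtain ⟨C, hC, hsh⟩ := shifts4 K
  refine ⟨C, hC, fun m A a hm hA hinj ha haA ham => ?_⟩
  obtain ⟨h, hhinj, hhp, -, hhd, hhC⟩ := hsh A a hA ha haA
  have hm0 : (m : ℤ) ≠ 0 := by exact_mod_cast hm.ne'
  obtain ⟨f, hf⟩ : ∃ f : Fin (4 * K) → ℤ, f = fun i => m * (h i : ℤ) := ⟨_, rfl⟩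
  have hfinj : Function.Injective f := by
    intro x y hxy
    rw [hf] at hxy
    have h1 : (h x : ℤ) = h y := mul_left_cancel₀ hm0 hxy
    exact hhinj (by exact_mod_cast h1)
  obtain ⟨i, j, hij, x, hx, x', hx', hne, hinf⟩ := hK a hinj ha (univ.image f) (by
      rw [card_image_of_injective _ hfinj, card_univ, Fintype.card_fin]
      omega) (by
      intro x hx j
      obtain ⟨i, -, rfl⟩ := mem_image.1 hx
      have h1 : Nat.Coprime (a j) (m * h i) :=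
        Nat.Coprime.mul_right (ham j) ((Nat.Prime.coprime_iff_not_dvd (hhp i)).2 (hhd i j)).symm
      have h2 := Nat.isCoprime_iff_coprime.2 h1
      simpa [hf] using h2)
  obtain ⟨u, -, rfl⟩ := mem_image.1 hx
  obtain ⟨v, -, rfl⟩ := mem_image.1 hx'
  refine ⟨i, j, hij, _, ?_, ?_, reduce (ha i) (ha j) hne hinf⟩
  · have hb : ∀ (w : ℕ) (u : Fin (4 * K)), w ≤ A →
        (w : ℝ) * (f u : ℝ) ≤ C * m * A * Real.log A ∧ 0 ≤ (w : ℝ) * (f u : ℝ) := by
      intro w u hw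
      have e1 : (w : ℝ) * (f u : ℝ) = (w : ℝ) * (m * (h u : ℝ)) := by
        simp only [hf]
        push_cast
        ring
      rw [e1]
      have h1 : (w : ℝ) ≤ A := by exact_mod_cast hw
      have h2 := hhC u
      have h3 : (0 : ℝ) ≤ h u := Nat.cast_nonneg _
      have h4 : (0 : ℝ) ≤ A := Nat.cast_nonneg _
      have h5 : (0 : ℝ) ≤ m := Nat.cast_nonneg _
      refine ⟨?_, by positivity⟩
      calc (w : ℝ) * (m * (h u : ℝ)) ≤ A * (m * (C * Real.log A)) :=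
            mul_le_mul h1 (mul_le_mul_of_nonneg_left h2 h5) (by positivity) h4
        _ = C * m * A * Real.log A := by ring
    obtain ⟨w, hw⟩ : ∃ w : ℕ, w = a i / Nat.gcd (a i) (a j) := ⟨_, rfl⟩
    obtain ⟨w', hw'⟩ : ∃ w' : ℕ, w' = a j / Nat.gcd (a i) (a j) := ⟨_, rfl⟩
    rw [← hw, ← hw']
    have h1 := hb w u (by rw [hw]; exact (Nat.div_le_self _ _).trans (haA i))
    have h2 := hb w' v (by rw [hw']; exact (Nat.div_le_self _ _).trans (haA j))
    rw [Int.cast_sub, Int.cast_mul, Int.cast_mul, Int.cast_natCast, Int.cast_natCast, abs_le]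
    constructor <;> linarith
  · simp only [hf]
    exact dvd_sub (((dvd_mul_right _ _).mul_left _)) (((dvd_mul_right _ _).mul_left _))

/-- Turán's theorem: a third of all pairs -/
theorem third {Q : ℕ → ℕ → Prop} (hQ : ∀ a b, Q a b → Q b a) (S : Finset ℕ)
    (h5 : ∀ a : Fin 4 → ℕ, Function.Injective a → (∀ j, a j ∈ S) →
      ∃ i j, i ≠ j ∧ Q (a i) (a j)) :
    (S.card : ℝ) ^ 2 / 3 - S.card ≤
      {ab : ℕ × ℕ | ab.1 ∈ S ∧ ab.2 ∈ S ∧ ab.1 ≠ ab.2 ∧ Q ab.1 ab.2}.ncard := by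
  classical
  let G : SimpleGraph S :=
    { Adj := fun a b => a ≠ b ∧ ¬ Q a b
      symm := ⟨fun a b hab => ⟨hab.1.symm, fun h => hab.2 (hQ _ _ h)⟩⟩
      loopless := ⟨fun a h => h.1 rfl⟩ }
  have hfree : G.CliqueFree (3 + 1) := by
    intro s hs
    obtain ⟨f⟩ : Nonempty (Fin 4 ≃ s) := by
      have : Fintype.card s = 4 := by rw [Fintype.card_coe]; exact hs.card_eq
      exact ⟨(Fintype.equivFinOfCardEq this).symm⟩
    obtain ⟨i, j, hij, hg⟩ := h5 (fun i => ((f i : S) : ℕ))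
      (fun i j hij => f.injective (Subtype.ext (Subtype.ext hij))) (fun i => (f i : S).2)
    have hne : (f i : S) ≠ (f j : S) := fun h => hij (f.injective (Subtype.ext h))
    exact (hs.isClique (f i).2 (f j).2 hne).2 hg
  have h1 : G.edgeFinset.card ≤ #(SimpleGraph.turanGraph S.card 3).edgeFinset := by
    have h1 := hfree.card_edgeFinset_le
    simp only [Fintype.card_coe] at h1
    rw [SimpleGraph.card_edgeFinset_turanGraph]
    exact h1
  have h2 := SimpleGraph.two_mul_card_edgeFinset (G := G)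
  have h3 := SimpleGraph.mul_card_edgeFinset_turanGraph_le (n := S.card) (r := 3)
  set good := (S ×ˢ S).filter (fun ab => ab.1 ≠ ab.2 ∧ Q ab.1 ab.2) with hgood
  set bad := (S ×ˢ S).filter (fun ab => ab.1 ≠ ab.2 ∧ ¬ Q ab.1 ab.2) with hbad
  have e1 : {ab : ℕ × ℕ | ab.1 ∈ S ∧ ab.2 ∈ S ∧ ab.1 ≠ ab.2 ∧ Q ab.1 ab.2}
      = (good : Set (ℕ × ℕ)) := by
    ext ab
    simp only [hgood, Set.mem_ofPred_eq, coe_filter, mem_product]
    tauto
  rw [e1, Set.ncard_coe_finset]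
  have e2 : bad.card = #(univ.filter fun (x : S × S) => G.Adj x.1 x.2) := by
    symm
    refine card_bij (fun x _ => ((x.1 : ℕ), (x.2 : ℕ))) ?_ ?_ ?_
    · rintro ⟨x, y⟩ hxy
      rw [mem_filter] at hxy
      rw [hbad, mem_filter, mem_product]
      exact ⟨⟨x.2, y.2⟩, fun h => hxy.2.1 (Subtype.ext h), hxy.2.2⟩
    · rintro ⟨x, y⟩ _ ⟨x', y'⟩ _ h
      have h4 := (Prod.mk.inj h)
      exact Prod.ext (Subtype.ext h4.1) (Subtype.ext h4.2)
    · rintro ⟨x, y⟩ hxy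
      rw [hbad, mem_filter, mem_product] at hxy
      refine ⟨(⟨x, hxy.1.1⟩, ⟨y, hxy.1.2⟩), ?_, rfl⟩
      rw [mem_filter]
      exact ⟨mem_univ _, fun h => hxy.2.1 (congrArg Subtype.val h), hxy.2.2⟩
  have e3 : good.card + bad.card = #((S ×ˢ S).filter (fun ab => ab.1 ≠ ab.2)) := by
    rw [hgood, hbad, ← filter_filter, ← filter_filter, card_filter_add_card_filter_not]
  have e4 : #((S ×ˢ S).filter (fun ab => ab.1 ≠ ab.2)) + S.card = S.card ^ 2 := by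
    have h5 := card_filter_add_card_filter_not (s := S ×ˢ S) (fun ab => ab.1 = ab.2)
    have h6 : #((S ×ˢ S).filter (fun ab => ab.1 = ab.2)) = S.card := by
      have h7 : (S ×ˢ S).filter (fun ab => ab.1 = ab.2) = S.diag := by
        ext ab
        simp only [mem_filter, mem_product, mem_diag]
        constructor
        · rintro ⟨⟨h8, -⟩, h9⟩
          exact ⟨h8, h9⟩
        · rintro ⟨h8, h9⟩
          exact ⟨⟨h8, h9 ▸ h8⟩, h9⟩
      rw [h7, diag_card]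
    rw [h6, card_product] at h5
    rw [sq, ← h5, add_comm]
  have h4 : 3 * bad.card ≤ 2 * S.card ^ 2 := by
    have h5 : bad.card = 2 * G.edgeFinset.card := by rw [e2, h2]
    omega
  have h5 : 3 * good.card + 3 * S.card + 2 * S.card ^ 2 ≥ 3 * S.card ^ 2 := by omega
  have h6 : (3 * good.card + 3 * S.card + 2 * S.card ^ 2 : ℝ) ≥ 3 * (S.card : ℝ) ^ 2 := by exact_mod_cast h5
  linarith

/-- the ratio of two monomials of degree three in coprime `a`, `b` -/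
theorem powers_reduce {R : ℕ → ℕ → Prop} {a b : ℕ} (ha : 0 < a) (hb : 0 < b)
    (hab : Nat.Coprime a b) {i j : ℕ} (hij : i < j) (hj : j ≤ 3)
    (h : Lowest R (a ^ (3 - i) * b ^ i) (a ^ (3 - j) * b ^ j)) :
    R (a ^ (j - i)) (b ^ (j - i)) := by
  have e1 : a ^ (3 - i) * b ^ i = (a ^ (3 - j) * b ^ i) * a ^ (j - i) := by
    rw [show 3 - i = (3 - j) + (j - i) by omega, pow_add]
    ring
  have e2 : a ^ (3 - j) * b ^ j = (a ^ (3 - j) * b ^ i) * b ^ (j - i) := by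
    have : b ^ j = b ^ i * b ^ (j - i) := by
      rw [← pow_add]
      congr 1
      omega
    rw [this]
    ring
  have hpos : 0 < a ^ (3 - j) * b ^ i := by positivity
  have hg : Nat.gcd (a ^ (3 - i) * b ^ i) (a ^ (3 - j) * b ^ j) = a ^ (3 - j) * b ^ i := by
    rw [e1, e2, Nat.gcd_mul_left, Nat.Coprime.pow (j - i) (j - i) hab, mul_one]
  have f1 : a ^ (3 - i) * b ^ i / (a ^ (3 - j) * b ^ i) = a ^ (j - i) := by
    rw [e1, Nat.mul_div_cancel_left _ hpos]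
  have f2 : a ^ (3 - j) * b ^ j / (a ^ (3 - j) * b ^ i) = b ^ (j - i) := by
    rw [e2, Nat.mul_div_cancel_left _ hpos]
  unfold Lowest at h
  rw [hg, f1, f2] at h
  exact h

/-- powers of a given pair -/
theorem powers {R : ℕ → ℕ → Prop} (hR : ∀ a b, R a b → R b a) {P : ℕ → Prop} {a b : ℕ}
    (ha : 0 < a) (hb : 0 < b) (hne : a ≠ b) (hab : Nat.Coprime a b)
    (hP : ∀ j : ℕ, j ≤ 3 → P (a ^ (3 - j) * b ^ j))
    (h5 : ∀ s : Fin 4 → ℕ, Function.Injective s → (∀ j, 0 < s j) →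
      (∀ j, s j ≤ (max a b) ^ 3) → (∀ j, P (s j)) → ∃ i j, i ≠ j ∧ Lowest R (s i) (s j)) :
    ∃ t ∈ Icc 1 3, R (a ^ t) (b ^ t) := by
  obtain ⟨M, hM⟩ : ∃ M : ℕ, M = max a b := ⟨_, rfl⟩
  rw [← hM] at h5
  have hcancel : ∀ i j : ℕ, i < j → j ≤ 3 → a ^ (3 - i) * b ^ i ≠ a ^ (3 - j) * b ^ j := by
    intro i j hij hj heq
    have e1 : a ^ (3 - i) * b ^ i = (a ^ (3 - j) * b ^ i) * a ^ (j - i) := by
      rw [show 3 - i = (3 - j) + (j - i) by omega, pow_add]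
      ring
    have e2 : a ^ (3 - j) * b ^ j = (a ^ (3 - j) * b ^ i) * b ^ (j - i) := by
      have : b ^ j = b ^ i * b ^ (j - i) := by
        rw [← pow_add]
        congr 1
        omega
      rw [this]
      ring
    rw [e1, e2] at heq
    have hpos : 0 < a ^ (3 - j) * b ^ i := by positivity
    have h1 := Nat.eq_of_mul_eq_mul_left hpos heq
    exact hne (Nat.pow_left_injective (by omega : j - i ≠ 0) h1)
  obtain ⟨i, j, hij, hg⟩ := h5 (fun i : Fin 4 => a ^ (3 - (i : ℕ)) * b ^ (i : ℕ))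
    (by
      intro i j hij
      by_contra hc
      have hi := i.2
      have hj := j.2
      rcases lt_or_gt_of_ne (fun h => hc (Fin.ext h) : (i : ℕ) ≠ j) with h | h
      · exact hcancel i j h (by omega) hij
      · exact hcancel j i h (by omega) hij.symm)
    (fun j => by positivity)
    (fun j => by
      have hj := j.2
      calc a ^ (3 - (j : ℕ)) * b ^ (j : ℕ) ≤ M ^ (3 - (j : ℕ)) * M ^ (j : ℕ) :=
            Nat.mul_le_mul (Nat.pow_le_pow_left (by omega) _) (Nat.pow_le_pow_left (by omega) _)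
        _ = M ^ 3 := by rw [← pow_add]; congr 1; omega)
    (fun j => hP j (by have := j.2; omega))
  have hi := i.2
  have hj := j.2
  rcases lt_or_gt_of_ne (fun h => hij (Fin.ext h) : (i : ℕ) ≠ j) with h | h
  · exact ⟨j - i, mem_Icc.2 ⟨by omega, by omega⟩, powers_reduce ha hb hab h (by omega) hg⟩
  · exact ⟨i - j, mem_Icc.2 ⟨by omega, by omega⟩,
      powers_reduce ha hb hab h (by omega) (lowest_symm hR hg)⟩

/-- three numbers that suffice for every `a` -/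
theorem three {Q : ℕ → ℕ → Prop} (hQ : ∀ a b, Q a b → Q b a) {P : ℕ → Prop}
    (h5 : ∀ a : Fin 4 → ℕ, Function.Injective a → (∀ j, P (a j)) →
      ∃ i j, i ≠ j ∧ Q (a i) (a j)) :
    ∃ B : Finset ℕ, B.card ≤ 3 ∧ (∀ b ∈ B, P b) ∧
      ∀ a : ℕ, P a → a ∉ B → ∃ b ∈ B, Q a b := by
  classical
  let Z : ℕ → Prop := fun n => ∃ B : Finset ℕ, B.card = n ∧ (∀ b ∈ B, P b) ∧
    ∀ x ∈ B, ∀ y ∈ B, x ≠ y → ¬ Q x y
  have hP3 : ∀ n, Z n → n ≤ 3 := by
    rintro n ⟨B, hBn, hB, hind⟩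
    by_contra hc
    push Not at hc
    obtain ⟨T, hT, hTc⟩ := Finset.exists_subset_card_eq (show 4 ≤ B.card by omega)
    obtain ⟨i, j, hij, hg⟩ := h5 (fun i => T.orderEmbOfFin hTc i)
      (T.orderEmbOfFin hTc).injective (fun j => hB _ (hT (T.orderEmbOfFin_mem hTc j)))
    exact hind _ (hT (T.orderEmbOfFin_mem hTc i)) _ (hT (T.orderEmbOfFin_mem hTc j))
      (fun h => hij ((T.orderEmbOfFin hTc).injective h)) hg
  have hP0 : Z 0 := ⟨∅, by simp⟩
  obtain ⟨B, hBn, hB, hind⟩ := Nat.findGreatest_spec (P := Z) (Nat.zero_le 3) hP0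
  have hmax : ∀ n, Z n → n ≤ Nat.findGreatest Z 3 := fun n hn =>
    Nat.le_findGreatest (hP3 n hn) hn
  refine ⟨B, by rw [hBn]; exact Nat.findGreatest_le 3, hB, fun a ha haB => ?_⟩
  by_contra hcon
  push Not at hcon
  have hPn : Z (Nat.findGreatest Z 3 + 1) := by
    refine ⟨insert a B, by rw [card_insert_of_notMem haB, hBn], ?_, ?_⟩
    · intro b hb
      rcases mem_insert.1 hb with rfl | hb
      · exact ha
      · exact hB b hb
    · intro x hx y hy hxy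
      rcases mem_insert.1 hx with rfl | hx'
      · rcases mem_insert.1 hy with rfl | hy'
        · exact absurd rfl hxy
        · exact hcon y hy'
      · rcases mem_insert.1 hy with rfl | hy'
        · exact fun h => hcon x hx' (hQ _ _ h)
        · exact hind x hx' y hy' hxy
  have := hmax _ hPn
  omega

/-- a positive proportion of all `c` -/
theorem ample_four (h4' : CM4_stmt) (A : ℕ) (hA : 2 ≤ A) : ∃ δ : ℝ, 0 < δ ∧ ∀ a : Fin 4 → ℕ,
    Function.Injective a → (∀ j, 0 < a j) → (∀ j, a j ≤ A) →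
    ∃ i j, i ≠ j ∧ Lowest (Ample δ) (a i) (a j) := by
  classical
  obtain ⟨C, hC, h5⟩ := small_four h4'
  obtain ⟨B, hB⟩ : ∃ B : ℕ, B = ⌈C * A * Real.log A⌉₊ + 1 := ⟨_, rfl⟩
  obtain ⟨F, hF⟩ : ∃ F : ℕ, F = A.factorial := ⟨_, rfl⟩
  have hB1 : 1 ≤ B := by omega
  have hF1 : 1 ≤ F := by rw [hF]; exact Nat.factorial_pos A
  have hBC : C * A * Real.log A ≤ B := by
    rw [hB]
    push_cast
    linarith [Nat.le_ceil (C * A * Real.log A)]
  have hB0 : (1 : ℝ) ≤ B := by exact_mod_cast hB1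
  refine ⟨1 / (3 * B ^ 2 * (1 + 16 * F)), by positivity, fun a hinj ha haA => ?_⟩
  have hk : ∀ k : ℕ, ∃ ij : Fin 4 × Fin 4, ∃ c : ℤ, ij.1 ≠ ij.2 ∧
      |(c : ℝ)| ≤ B * (1 + F * k : ℕ) ∧ ((1 + F * k : ℕ) : ℤ) ∣ c ∧
      TrueCase (a ij.1 / Nat.gcd (a ij.1) (a ij.2)) (a ij.2 / Nat.gcd (a ij.1) (a ij.2)) c := by
    intro k
    obtain ⟨i, j, hij, c, hc, hd, ht⟩ := h5 (1 + F * k) A a (by omega) hA hinj ha haA (by
      intro j
      have h1 : a j ∣ F * k := by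
        rw [hF]
        exact (Nat.dvd_factorial (ha j) (haA j)).mul_right _
      obtain ⟨w, hw⟩ := h1
      rw [hw]
      rw [Nat.coprime_add_mul_left_right]
      exact Nat.coprime_one_right _)
    refine ⟨(i, j), c, hij, hc.trans ?_, hd, ht⟩
    have h1 : (0 : ℝ) ≤ ((1 + F * k : ℕ) : ℝ) := Nat.cast_nonneg _
    calc C * ((1 + F * k : ℕ) : ℝ) * A * Real.log A
        = (C * A * Real.log A) * ((1 + F * k : ℕ) : ℝ) := by ring
      _ ≤ B * ((1 + F * k : ℕ) : ℝ) := mul_le_mul_of_nonneg_right hBC h1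
  choose ij c hne hc hd ht using hk
  by_contra hcon
  have hX : ∀ p : Fin 4 × Fin 4, ∃ X₀ : ℝ, p.1 ≠ p.2 → ∀ X : ℝ, X₀ ≤ X →
      ({c : ℤ | |(c : ℝ)| ≤ X ∧ TrueCase (a p.1 / Nat.gcd (a p.1) (a p.2))
        (a p.2 / Nat.gcd (a p.1) (a p.2)) c}.ncard : ℝ) < 1 / (3 * B ^ 2 * (1 + 16 * F)) * X := by
    intro p
    by_cases hp : p.1 = p.2
    · exact ⟨0, fun h => absurd hp h⟩
    · by_contra hno
      push Not at hno
      exact hcon ⟨p.1, p.2, hp, fun X₀ => by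
        obtain ⟨-, X, hX1, hX2⟩ := hno X₀
        exact ⟨X, hX1, hX2⟩⟩
  choose X₀ hX₀ using hX
  obtain ⟨K, hK⟩ := exists_nat_ge (∑ p, |X₀ p| + 1)
  have hK1 : (1 : ℝ) ≤ K := by
    have : 0 ≤ ∑ p, |X₀ p| := sum_nonneg fun p _ => abs_nonneg _
    linarith
  have hK1' : 1 ≤ K := by exact_mod_cast hK1
  obtain ⟨p, -, hp⟩ := Finset.exists_le_card_fiber_of_mul_le_card_of_maps_to
    (s := range (16 * K)) (t := (univ : Finset (Fin 4 × Fin 4))) (f := ij) (n := K)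
    (fun _ _ => mem_univ _) ⟨(0, 0), mem_univ _⟩ (by
      rw [card_univ, card_range]; simp)
  obtain ⟨T, hT⟩ : ∃ T : Finset ℕ, T = (range (16 * K)).filter (fun k => ij k = p) := ⟨_, rfl⟩
  rw [← hT] at hp
  have hTmem : ∀ k ∈ T, k < 16 * K ∧ ij k = p := fun k hk => by
    rw [hT, mem_filter, mem_range] at hk
    exact hk
  obtain ⟨k₀, hk₀⟩ : T.Nonempty := card_pos.1 (by omega)
  have hpne : p.1 ≠ p.2 := by
    have := hne k₀
    rwa [(hTmem k₀ hk₀).2] at this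
  obtain ⟨X, hXdef⟩ : ∃ X : ℕ, X = B * (1 + F * (16 * K)) := ⟨_, rfl⟩
  have hcard : T.card ≤ (2 * B + 1) * (T.image c).card := by
    refine card_le_mul_card_image T _ fun c₀ hc₀ => ?_
    obtain ⟨k₁, hk₁, hk₁'⟩ := mem_image.1 hc₀
    have hc0 : c₀ ≠ 0 := by
      rw [← hk₁']
      exact (ht k₁).2.2.1
    have hcardI : (Icc (-(B : ℤ)) B).card = 2 * B + 1 := by
      rw [Int.card_Icc]
      omega
    rw [← hcardI]
    refine card_le_card_of_injOn (fun k => c₀ / ((1 + F * k : ℕ) : ℤ)) ?_ ?_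
    · intro k hk
      rw [mem_coe, mem_filter] at hk
      have h1 := hd k
      have h2 := hc k
      rw [hk.2] at h1 h2
      obtain ⟨w, hw⟩ := h1
      have hm0 : (0 : ℤ) < ((1 + F * k : ℕ) : ℤ) := by positivity
      rw [mem_coe, mem_Icc]
      simp only
      rw [hw, Int.mul_ediv_cancel_left _ hm0.ne']
      have h3 : |w| ≤ B := by
        have h4 : |((1 + F * k : ℕ) : ℤ) * w| ≤ B * ((1 + F * k : ℕ) : ℤ) := by
          rw [← hw]
          exact_mod_cast h2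
        rw [abs_mul, abs_of_pos hm0, mul_comm] at h4
        exact le_of_mul_le_mul_right h4 hm0
      exact abs_le.1 h3
    · intro k hk k' hk' heq
      rw [mem_coe, mem_filter] at hk hk'
      have h1 := hd k
      have h1' := hd k'
      rw [hk.2] at h1
      rw [hk'.2] at h1'
      simp only at heq
      have e1 := Int.mul_ediv_cancel' h1
      have e2 := Int.mul_ediv_cancel' h1'
      rw [← heq] at e2
      have hq0 : c₀ / ((1 + F * k : ℕ) : ℤ) ≠ 0 := by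
        intro h0
        rw [h0, mul_zero] at e1
        exact hc0 e1.symm
      have e3 : ((1 + F * k : ℕ) : ℤ) = ((1 + F * k' : ℕ) : ℤ) :=
        mul_right_cancel₀ hq0 (e1.trans e2.symm)
      have e4 : 1 + F * k = 1 + F * k' := by exact_mod_cast e3
      exact Nat.eq_of_mul_eq_mul_left hF1 (by omega)
  have hsub : ((T.image c : Finset ℤ) : Set ℤ) ⊆ {c : ℤ | |(c : ℝ)| ≤ (X : ℝ) ∧
      TrueCase (a p.1 / Nat.gcd (a p.1) (a p.2)) (a p.2 / Nat.gcd (a p.1) (a p.2)) c} := by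
    intro c₀ hc₀
    obtain ⟨k, hk, rfl⟩ := mem_image.1 (mem_coe.1 hc₀)
    obtain ⟨hk1, hk2⟩ := hTmem k hk
    refine ⟨(hc k).trans ?_, ?_⟩
    · rw [hXdef]
      have h1 : B * (1 + F * k) ≤ B * (1 + F * (16 * K)) :=
        Nat.mul_le_mul_left _ (Nat.add_le_add_left (Nat.mul_le_mul_left _ hk1.le) _)
      exact_mod_cast h1
    · have := ht k
      rwa [hk2] at this
  have hfin : {c : ℤ | |(c : ℝ)| ≤ (X : ℝ) ∧
      TrueCase (a p.1 / Nat.gcd (a p.1) (a p.2)) (a p.2 / Nat.gcd (a p.1) (a p.2)) c}.Finite := by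
    refine (Set.finite_Icc (-(X : ℤ)) X).subset ?_
    rintro c₀ ⟨h1, -⟩
    have h2 : |c₀| ≤ (X : ℤ) := by exact_mod_cast h1
    exact abs_le.1 h2
  have hncard := Set.ncard_le_ncard hsub hfin
  rw [Set.ncard_coe_finset] at hncard
  have hXK : X₀ p ≤ X := by
    have h1 : |X₀ p| ≤ ∑ p, |X₀ p| :=
      single_le_sum (f := fun p => |X₀ p|) (fun p _ => abs_nonneg _) (mem_univ p)
    have h2 : K ≤ X := by
      rw [hXdef]
      have h3 : K ≤ F * (16 * K) := by nlinarith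
      nlinarith
    have h3 : (K : ℝ) ≤ X := by exact_mod_cast h2
    linarith [le_abs_self (X₀ p)]
  have hlt := hX₀ p hpne X hXK
  have h1 : (X : ℝ) ≤ B * (1 + 16 * F) * K := by
    rw [hXdef]
    push_cast
    have h2 : (1 : ℝ) + F * (16 * K) ≤ (1 + 16 * F) * K := by nlinarith
    calc (B : ℝ) * (1 + F * (16 * K)) ≤ B * ((1 + 16 * F) * K) :=
          mul_le_mul_of_nonneg_left h2 (by positivity)
      _ = _ := by ring
  have h2 : (K : ℝ) ≤ 3 * B * {c : ℤ | |(c : ℝ)| ≤ (X : ℝ) ∧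
      TrueCase (a p.1 / Nat.gcd (a p.1) (a p.2)) (a p.2 / Nat.gcd (a p.1) (a p.2)) c}.ncard := by
    have h3 : K ≤ (2 * B + 1) * (T.image c).card := hp.trans hcard
    have h4 : K ≤ 3 * B * {c : ℤ | |(c : ℝ)| ≤ (X : ℝ) ∧
      TrueCase (a p.1 / Nat.gcd (a p.1) (a p.2)) (a p.2 / Nat.gcd (a p.1) (a p.2)) c}.ncard :=
      h3.trans (Nat.mul_le_mul (by omega) hncard)
    exact_mod_cast h4
  have h3 : 1 / (3 * (B : ℝ) ^ 2 * (1 + 16 * F)) * X ≤ K / (3 * B) := by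
    rw [one_div_mul_eq_div, div_le_div_iff₀ (by positivity) (by positivity)]
    calc (X : ℝ) * (3 * B) ≤ (B * (1 + 16 * F) * K) * (3 * B) :=
          mul_le_mul_of_nonneg_right h1 (by positivity)
      _ = K * (3 * B ^ 2 * (1 + 16 * F)) := by ring
  have h4 : (K : ℝ) / (3 * B) ≤ {c : ℤ | |(c : ℝ)| ≤ (X : ℝ) ∧
      TrueCase (a p.1 / Nat.gcd (a p.1) (a p.2)) (a p.2 / Nat.gcd (a p.1) (a p.2)) c}.ncard := by
    rw [div_le_iff₀ (by positivity)]
    linarith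
  linarith

end Pool.Agent.helper85.FD
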