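import Pool.Agent.helper71.FC.F4

/-!
# Four coefficients (MP_bf63dc_nt): the shifts
-/

namespace Pool.Agent.helper85.FD

open Finset Real ArithmeticFunction Pool.Agent.helper85.FC

/-- F3: the shifts. For given `a₁, ..., a₄` there are `4 kc` distinct primes larger than `4 kc`, not
dividing the product of the `a_j`, and at most `C log A`. -/
theorem shifts4 (kc : ℕ) : ∃ C : ℝ, 0 < C ∧ ∀ (A : ℕ) (a : Fin 4 → ℕ), 2 ≤ A → (∀ j, 0 < a j) →
    (∀ j, a j ≤ A) → ∃ h : Fin (4 * kc) → ℕ, Function.Injective h ∧ (∀ i, (h i).Prime) ∧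
      (∀ i, 4 * kc < h i) ∧ (∀ i j, ¬ h i ∣ a j) ∧ ∀ i, (h i : ℝ) ≤ C * Real.log A := by
  obtain ⟨n₀, hn₀⟩ := F3_large (4 * kc)
  refine ⟨2 * (n₀ + 1) + 30, by positivity, fun A a hA ha haA => ?_⟩
  set K := 4 * kc with hK
  set C : ℝ := 2 * (n₀ + 1) + 30 with hC
  set n : ℕ := ⌊C * Real.log A⌋₊ with hn
  have hl2 : 0.6931471803 < Real.log 2 := Real.log_two_gt_d9
  have hlA : Real.log 2 ≤ Real.log A := Real.log_le_log (by norm_num) (by exact_mod_cast hA)
  have hn₀0 : (0 : ℝ) ≤ n₀ := Nat.cast_nonneg n₀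
  have hClA : (n₀ : ℝ) + 1 + 20 * Real.log A + 1 ≤ C * Real.log A := by
    rw [hC]; nlinarith
  have hC0 : 0 ≤ C * Real.log A := by linarith
  have hnle : (n : ℝ) ≤ C * Real.log A := Nat.floor_le hC0
  have hnlt : C * Real.log A < n + 1 := Nat.lt_floor_add_one _
  have hnn₀ : n₀ ≤ n := by
    have : (n₀ : ℝ) ≤ n := by linarith
    exact_mod_cast this
  have hth := hn₀ n hnn₀
  set S : Finset ℕ := (Nat.primesLE n).filter (fun p => K < p ∧ ∀ j, ¬ p ∣ a j) with hS
  have hcard : K ≤ #S := by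
    by_contra hlt
    push Not at hlt
    have hsplit : Nat.primesLE n ⊆ Nat.primesLE K ∪ (Finset.univ.biUnion fun j => (a j).primeFactors) ∪ S := by
      intro p hp
      rw [Nat.mem_primesLE] at hp
      rw [Finset.mem_union, Finset.mem_union]
      by_cases h1 : p ≤ K
      · left; left; rw [Nat.mem_primesLE]; exact ⟨h1, hp.2⟩
      · by_cases h2 : ∃ j, p ∣ a j
        · obtain ⟨j, hj⟩ := h2
          left; right
          rw [Finset.mem_biUnion]
          exact ⟨j, Finset.mem_univ _, Nat.mem_primeFactors.2 ⟨hp.2, hj, (ha j).ne'⟩⟩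
        · right
          push Not at h2
          rw [hS, Finset.mem_filter, Nat.mem_primesLE]
          exact ⟨hp, by omega, h2⟩
    have hnonneg : ∀ p : ℕ, 0 ≤ Real.log (p : ℝ) := fun p => Real.log_natCast_nonneg p
    have h1 : Chebyshev.theta n ≤ ∑ p ∈ Nat.primesLE K, Real.log p +
        ∑ j, ∑ p ∈ (a j).primeFactors, Real.log p + ∑ p ∈ S, Real.log p := by
      rw [Chebyshev.theta_eq_sum_primesLE_log]
      calc ∑ p ∈ Nat.primesLE n, Real.log (p : ℝ)
          ≤ ∑ p ∈ Nat.primesLE K ∪ (Finset.univ.biUnion fun j => (a j).primeFactors) ∪ S,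
              Real.log (p : ℝ) :=
            Finset.sum_le_sum_of_subset_of_nonneg hsplit fun p _ _ => hnonneg p
        _ ≤ ∑ p ∈ Nat.primesLE K ∪ (Finset.univ.biUnion fun j => (a j).primeFactors),
              Real.log (p : ℝ) + ∑ p ∈ S, Real.log (p : ℝ) := by
            have h2 := Finset.sum_union_inter (s₁ := Nat.primesLE K ∪
              (Finset.univ.biUnion fun j => (a j).primeFactors)) (s₂ := S)
              (f := fun p : ℕ => Real.log (p : ℝ))
            have h3 : 0 ≤ ∑ p ∈ (Nat.primesLE K ∪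
              (Finset.univ.biUnion fun j => (a j).primeFactors)) ∩ S, Real.log (p : ℝ) :=
              Finset.sum_nonneg fun p _ => hnonneg p
            linarith
        _ ≤ (∑ p ∈ Nat.primesLE K, Real.log (p : ℝ) +
              ∑ p ∈ Finset.univ.biUnion (fun j => (a j).primeFactors), Real.log (p : ℝ)) +
              ∑ p ∈ S, Real.log (p : ℝ) := by
            have h2 := Finset.sum_union_inter (s₁ := Nat.primesLE K)
              (s₂ := Finset.univ.biUnion fun j => (a j).primeFactors)
              (f := fun p : ℕ => Real.log (p : ℝ))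
            have h3 : 0 ≤ ∑ p ∈ Nat.primesLE K ∩
              (Finset.univ.biUnion fun j => (a j).primeFactors), Real.log (p : ℝ) :=
              Finset.sum_nonneg fun p _ => hnonneg p
            linarith
        _ ≤ _ := by
            gcongr
            exact F3_biUnion _ _ _ hnonneg
    have h2 : ∑ p ∈ Nat.primesLE K, Real.log (p : ℝ) ≤ Real.log 4 * K := by
      rw [← Chebyshev.theta_eq_sum_primesLE_log]
      exact Chebyshev.theta_le_log4_mul_x (Nat.cast_nonneg K)
    have h3 : ∑ j, ∑ p ∈ (a j).primeFactors, Real.log (p : ℝ) ≤ 4 * Real.log A := by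
      calc ∑ j, ∑ p ∈ (a j).primeFactors, Real.log (p : ℝ) ≤ ∑ _j : Fin 4, Real.log A := by
            refine Finset.sum_le_sum fun j _ => (F3_sum_primeFactors _ (ha j)).trans ?_
            exact Real.log_le_log (by exact_mod_cast ha j) (by exact_mod_cast haA j)
        _ = 4 * Real.log A := by simp
    have h4 : ∑ p ∈ S, Real.log (p : ℝ) ≤ K * Real.log n := by
      calc ∑ p ∈ S, Real.log (p : ℝ) ≤ ∑ _p ∈ S, Real.log (n : ℝ) := by
            refine Finset.sum_le_sum fun p hp => ?_
            rw [hS, Finset.mem_filter, Nat.mem_primesLE] at hp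
            exact Real.log_le_log (by exact_mod_cast hp.1.2.pos) (by exact_mod_cast hp.1.1)
        _ = #S * Real.log n := by simp
        _ ≤ K * Real.log n := by
            gcongr
    linarith
  -- choose
  have hcard2 : Fintype.card (Fin K) ≤ Fintype.card S := by
    rw [Fintype.card_fin, Fintype.card_coe]; exact hcard
  obtain ⟨e⟩ := Function.Embedding.nonempty_of_card_le hcard2
  have hmem : ∀ i, (e i : ℕ) ≤ n ∧ (e i : ℕ).Prime ∧ K < (e i : ℕ) ∧ ∀ j, ¬ (e i : ℕ) ∣ a j := by
    intro i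
    have h1 : (e i : ℕ) ∈ (Nat.primesLE n).filter (fun p => K < p ∧ ∀ j, ¬ p ∣ a j) := (e i).2
    rw [Finset.mem_filter, Nat.mem_primesLE] at h1
    exact ⟨h1.1.1, h1.1.2, h1.2.1, h1.2.2⟩
  refine ⟨fun i => (e i : ℕ), ?_, fun i => (hmem i).2.1, fun i => (hmem i).2.2.1,
    fun i j => (hmem i).2.2.2 j, fun i => ?_⟩
  · intro i i' h
    exact e.injective (Subtype.ext h)
  · have : ((e i : ℕ) : ℝ) ≤ n := by exact_mod_cast (hmem i).1
    linarith

end Pool.Agent.helper85.FD
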