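import Pool.Agent.helper85.FD.Cor

/-!
# Four coefficients (MP_bf63dc_nt): the theorem, from two primes in four clusters
-/

namespace Pool.Agent.helper85.FD

open Finset Pool.Agent.helper85.FC Pool.Agent.helper11.MK

/-- **Four coefficients.** -/
theorem four_result (h4 : CM4_stmt) : ∃ (C : ℝ) (K : ℕ) (δ : ℕ → ℝ), 0 < C ∧ (∀ A, 0 < δ A) ∧
    -- (1) arbitrary shifts
    (∀ a : Fin 4 → ℕ, Function.Injective a → (∀ j, 0 < a j) →
      ∀ H : Finset ℤ, K ≤ H.card → (∀ h ∈ H, ∀ j, IsCoprime (a j : ℤ) h) →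
      ∃ i j, i ≠ j ∧ ∃ h ∈ H, ∃ h' ∈ H,
        {pq : ℕ × ℕ | pq.1.Prime ∧ pq.2.Prime ∧
          (a i : ℤ) * (pq.1 - h) = a j * (pq.2 - h')}.Infinite) ∧
    -- (2) small `c` divisible by `m`
    (∀ (m A : ℕ) (a : Fin 4 → ℕ), 0 < m → 2 ≤ A →
      Function.Injective a → (∀ j, 0 < a j) → (∀ j, a j ≤ A) → (∀ j, Nat.Coprime (a j) m) →
      ∃ i j, i ≠ j ∧ Lowest (Small m (C * m * A * Real.log A)) (a i) (a j)) ∧
    -- (3) a positive proportion of all `c`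
    (∀ (A : ℕ) (a : Fin 4 → ℕ), 2 ≤ A →
      Function.Injective a → (∀ j, 0 < a j) → (∀ j, a j ≤ A) →
      ∃ i j, i ≠ j ∧ Lowest (Ample (δ A)) (a i) (a j)) ∧
    -- (4) at least a third of all pairs
    (∀ (A : ℕ) (S : Finset ℕ), 2 ≤ A → (∀ a ∈ S, 0 < a ∧ a ≤ A) →
      (S.card : ℝ) ^ 2 / 3 - S.card ≤ {ab : ℕ × ℕ | ab.1 ∈ S ∧ ab.2 ∈ S ∧ ab.1 ≠ ab.2 ∧
        Lowest (Ample (δ A)) ab.1 ab.2}.ncard ∧
      ∀ m : ℕ, 0 < m → (∀ a ∈ S, Nat.Coprime a m) →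
      (S.card : ℝ) ^ 2 / 3 - S.card ≤ {ab : ℕ × ℕ | ab.1 ∈ S ∧ ab.2 ∈ S ∧ ab.1 ≠ ab.2 ∧
        Lowest (Small m (C * m * A * Real.log A)) ab.1 ab.2}.ncard) ∧
    -- (5) powers of an arbitrary coprime pair
    (∀ a b : ℕ, 0 < a → 0 < b → a ≠ b → Nat.Coprime a b →
      (∃ t ∈ Icc 1 3, Ample (δ ((max a b) ^ 3)) (a ^ t) (b ^ t)) ∧
      ∀ m : ℕ, 0 < m → Nat.Coprime a m → Nat.Coprime b m →
      ∃ t ∈ Icc 1 3,
        Small m (3 * C * m * (max a b : ℕ) ^ 3 * Real.log (max a b : ℕ)) (a ^ t) (b ^ t)) ∧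
    -- (6) three numbers `b` suffice for all `a`
    (∃ B : Finset ℕ, B.card ≤ 3 ∧ (∀ b ∈ B, 0 < b) ∧ ∀ a : ℕ, 0 < a → a ∉ B →
      ∃ b ∈ B, ∃ ε : ℝ, 0 < ε ∧ Lowest (Ample ε) a b) := by
  classical
  obtain ⟨C, hC, h5⟩ := small_four h4
  obtain ⟨K, hK⟩ := four_shifts h4
  have hδ : ∀ A : ℕ, ∃ δ : ℝ, 0 < δ ∧ (2 ≤ A → ∀ a : Fin 4 → ℕ,
      Function.Injective a → (∀ j, 0 < a j) → (∀ j, a j ≤ A) →
      ∃ i j, i ≠ j ∧ Lowest (Ample δ) (a i) (a j)) := by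
    intro A
    by_cases hA : 2 ≤ A
    · obtain ⟨δ, hδ, h⟩ := ample_four h4 A hA
      exact ⟨δ, hδ, fun _ => h⟩
    · exact ⟨1, one_pos, fun h => absurd h hA⟩
  choose δ hδ0 hδ5 using hδ
  have hM : ∀ a b : ℕ, 0 < a → 0 < b → a ≠ b → 2 ≤ (max a b) ^ 3 := by
    intro a b ha hb hne
    have h2 : 2 ≤ max a b := by omega
    calc 2 ≤ max a b := h2
      _ = (max a b) ^ 1 := (pow_one _).symm
      _ ≤ (max a b) ^ 3 := Nat.pow_le_pow_right (by omega) (by norm_num)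
  refine ⟨C, K, δ, hC, hδ0, ?_, h5, fun A a hA => hδ5 A hA a, ?_, ?_, ?_⟩
  · intro a hinj ha H hH hcop
    obtain ⟨i, j, hij, h, hh, h', hh', -, hinf⟩ := hK a hinj ha H hH hcop
    exact ⟨i, j, hij, h, hh, h', hh', hinf⟩
  · intro A S hA hS
    refine ⟨third (Q := Lowest (Ample (δ A))) (fun _ _ h => lowest_symm (fun _ _ h => ample_symm h) h)
        S fun a hinj haS => ?_,
      fun m hm hSm => third (Q := Lowest (Small m (C * m * A * Real.log A)))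
        (fun _ _ h => lowest_symm (fun _ _ h => small_symm h) h) S fun a hinj haS => ?_⟩
    · exact hδ5 A hA a hinj (fun j => (hS _ (haS j)).1) (fun j => (hS _ (haS j)).2)
    · exact h5 m A a hm hA hinj (fun j => (hS _ (haS j)).1) (fun j => (hS _ (haS j)).2)
        (fun j => hSm _ (haS j))
  · intro a b ha hb hne hab
    refine ⟨?_, fun m hm ham hbm => ?_⟩
    · exact powers (R := Ample (δ ((max a b) ^ 3))) (fun _ _ h => ample_symm h) (P := fun _ => True)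
        ha hb hne hab (fun _ _ => trivial) fun s hs hs0 hsA _ =>
          hδ5 _ (hM a b ha hb hne) s hs hs0 hsA
    · have e : 3 * C * m * ((max a b : ℕ) : ℝ) ^ 3 * Real.log ((max a b : ℕ) : ℝ)
          = C * m * (((max a b) ^ 3 : ℕ) : ℝ) * Real.log (((max a b) ^ 3 : ℕ) : ℝ) := by
        rw [Nat.cast_pow, Real.log_pow]
        push_cast
        ring
      rw [e]
      exact powers (R := Small m (C * m * (((max a b) ^ 3 : ℕ) : ℝ)
          * Real.log (((max a b) ^ 3 : ℕ) : ℝ)))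
        (fun _ _ h => small_symm h) (P := fun x => Nat.Coprime x m) ha hb hne hab
        (fun j _ => Nat.Coprime.mul_left (ham.pow_left _) (hbm.pow_left _))
        fun s hs hs0 hsA hsm => h5 m _ s hm (hM a b ha hb hne) hs hs0 hsA hsm
  · refine three (Q := fun a b => ∃ ε : ℝ, 0 < ε ∧ Lowest (Ample ε) a b) (P := fun a => 0 < a)
      (fun a b h => by
        obtain ⟨ε, hε, h⟩ := h
        exact ⟨ε, hε, lowest_symm (fun _ _ h => ample_symm h) h⟩) fun a hinj ha => ?_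
    obtain ⟨i, j, hij, h⟩ := hδ5 (∑ j, a j + 2) (by omega) a hinj ha (fun j => by
      have := single_le_sum (f := a) (fun j _ => Nat.zero_le _) (mem_univ j)
      omega)
    exact ⟨i, j, hij, _, hδ0 _, h⟩

end Pool.Agent.helper85.FD
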