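import Pool.Agent.helper11.MK.Defs
import Pool.Agent.helper85.FD.F3

/-!
# Four coefficients (MP_bf63dc_nt): arbitrary shifts
-/

namespace Pool.Agent.helper85.FD

open Finset Real Pool.Agent.helper39.MT Pool.Agent.helper85.FC Pool.Agent.helper11.MK

/-- a large set of integers contains a given number of distinct elements in one residue class. -/
theorem Sh_class (kc M : ℕ) (hM : 0 < M) (H : Finset ℤ) (hH : kc * M ≤ H.card) :
    ∃ g : Fin kc → ℤ, Function.Injective g ∧ (∀ x, g x ∈ H) ∧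
      ∀ x x', (M : ℤ) ∣ g x - g x' := by
  classical
  have : NeZero M := ⟨hM.ne'⟩
  obtain ⟨r, -, hr⟩ := Finset.exists_le_card_fiber_of_mul_le_card_of_maps_to
    (s := H) (t := (univ : Finset (ZMod M))) (f := fun h : ℤ => (h : ZMod M)) (n := kc)
    (fun _ _ => mem_univ _) ⟨0, mem_univ _⟩ (by
      rw [card_univ, ZMod.card, mul_comm]; exact hH)
  obtain ⟨T, hT, hTc⟩ := Finset.exists_subset_card_eq hr
  refine ⟨fun x => T.orderEmbOfFin hTc x, (T.orderEmbOfFin hTc).injective, fun x => ?_, ?_⟩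
  · exact (mem_filter.1 (hT (T.orderEmbOfFin_mem hTc x))).1
  · intro x x'
    have h1 := (mem_filter.1 (hT (T.orderEmbOfFin_mem hTc x))).2
    have h2 := (mem_filter.1 (hT (T.orderEmbOfFin_mem hTc x'))).2
    rw [← ZMod.intCast_zmod_eq_zero_iff_dvd]
    push_cast
    rw [h1, h2, sub_self]

/-- **Four coefficients, arbitrary shifts.** -/
theorem four_shifts (h4 : CM4_stmt) : ∃ K : ℕ, ∀ a : Fin 4 → ℕ, Function.Injective a → (∀ j, 0 < a j) →
    ∀ H : Finset ℤ, K ≤ H.card → (∀ h ∈ H, ∀ j, IsCoprime (a j : ℤ) h) →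
    ∃ i j : Fin 4, i ≠ j ∧ ∃ h ∈ H, ∃ h' ∈ H, (a i : ℤ) * h ≠ a j * h' ∧
      {pq : ℕ × ℕ | pq.1.Prime ∧ pq.2.Prime ∧
        (a i : ℤ) * (pq.1 - h) = a j * (pq.2 - h')}.Infinite := by
  obtain ⟨kc, hkc, hmain⟩ := h4
  refine ⟨kc * (4 * kc).factorial, fun a hinj ha H hH hcop => ?_⟩
  obtain ⟨g, hginj, hgH, hgM⟩ := Sh_class kc _ (Nat.factorial_pos _) H hH
  set e : Fin (4 * kc) → Fin 4 × Fin kc := fun i => finProdFinEquiv.symm i with he
  have hcl : ∀ i, cl4 i = (e i).1 := fun i => rfl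
  set h : Fin (4 * kc) → ℤ := fun i => g (e i).2 with hh
  have hcopi : ∀ i j, IsCoprime (a j : ℤ) (h i) := fun i j => hcop _ (hgH _) j
  set P : ℕ := ∏ j, a j with hP
  have hPpos : 0 < P := Finset.prod_pos fun j _ => ha j
  have hdvdP : ∀ j, a j ∣ P := fun j => Finset.dvd_prod_of_mem _ (Finset.mem_univ j)
  have hmul : ∀ i : Fin (4 * kc), a (cl4 i) * (P / a (cl4 i)) = P := fun i =>
    Nat.mul_div_cancel' (hdvdP _)
  have hFpos : ∀ i : Fin (4 * kc), 0 < P / a (cl4 i) := fun i =>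
    Nat.div_pos (Nat.le_of_dvd hPpos (hdvdP _)) (ha _)
  -- the forms are not proportional
  have hne : ∀ i j : Fin (4 * kc), i ≠ j → (a (cl4 j) : ℤ) * h j ≠ a (cl4 i) * h i := by
    intro i j hij heq
    have h1 : a (cl4 j) ∣ a (cl4 i) := by
      have h2 : (a (cl4 j) : ℤ) ∣ (a (cl4 i) : ℤ) * h i := ⟨h j, heq.symm⟩
      have h3 : (a (cl4 j) : ℤ) ∣ (a (cl4 i) : ℤ) := (hcopi i (cl4 j)).dvd_of_dvd_mul_right h2
      exact_mod_cast h3
    have h2 : a (cl4 i) ∣ a (cl4 j) := by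
      have h2 : (a (cl4 i) : ℤ) ∣ (a (cl4 j) : ℤ) * h j := ⟨h i, heq⟩
      have h3 : (a (cl4 i) : ℤ) ∣ (a (cl4 j) : ℤ) := (hcopi j (cl4 i)).dvd_of_dvd_mul_right h2
      exact_mod_cast h3
    have h3 : a (cl4 i) = a (cl4 j) := Nat.dvd_antisymm h2 h1
    have h4 : (e i).1 = (e j).1 := hinj h3
    rw [h3] at heq
    have h5 : h j = h i := by
      have h6 : (a (cl4 j) : ℤ) ≠ 0 := by exact_mod_cast (ha (cl4 j)).ne'
      exact mul_left_cancel₀ h6 heq
    have h6 : (e j).2 = (e i).2 := hginj h5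
    have h7 : e i = e j := Prod.ext h4 h6.symm
    exact hij (finProdFinEquiv.symm.injective h7)
  have hdet : ∀ i j : Fin (4 * kc), i ≠ j →
      ((P / a (cl4 i) : ℕ) : ℤ) * h j ≠ ((P / a (cl4 j) : ℕ) : ℤ) * h i := by
    intro i j hij heq
    apply hne i j hij
    have hi : (a (cl4 i) : ℤ) * ((P / a (cl4 i) : ℕ) : ℤ) = P := by exact_mod_cast hmul i
    have hj : (a (cl4 j) : ℤ) * ((P / a (cl4 j) : ℕ) : ℤ) = P := by exact_mod_cast hmul j
    have h2 : (P : ℤ) * (a (cl4 j) * h j) = P * (a (cl4 i) * h i) := by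
      calc (P : ℤ) * (a (cl4 j) * h j)
          = ((a (cl4 i) : ℤ) * ((P / a (cl4 i) : ℕ) : ℤ)) * (a (cl4 j) * h j) := by rw [hi]
        _ = a (cl4 i) * a (cl4 j) * (((P / a (cl4 i) : ℕ) : ℤ) * h j) := by ring
        _ = a (cl4 i) * a (cl4 j) * (((P / a (cl4 j) : ℕ) : ℤ) * h i) := by rw [heq]
        _ = ((a (cl4 j) : ℤ) * ((P / a (cl4 j) : ℕ) : ℤ)) * (a (cl4 i) * h i) := by ring
        _ = P * (a (cl4 i) * h i) := by rw [hj]
    have h3 : (P : ℤ) ≠ 0 := by exact_mod_cast hPpos.ne'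
    exact mul_left_cancel₀ h3 h2
  -- the forms are admissible
  have hadm : ∀ p : ℕ, p.Prime → ∃ n : ℕ, ∀ i : Fin (4 * kc),
      ¬ (p : ℤ) ∣ ((P / a (cl4 i) : ℕ) : ℤ) * n + h i := by
    intro p hp
    have hpcop : ∀ i j, ¬ ((p : ℤ) ∣ a j ∧ (p : ℤ) ∣ h i) := by
      rintro i j ⟨h1, h2⟩
      have h3 := (hcopi i j).isUnit_of_dvd' h1 h2
      rw [Int.isUnit_iff] at h3
      have := hp.two_le
      omega
    rcases le_or_gt p (4 * kc) with hpk | hpk
    · have hpM : (p : ℤ) ∣ ((4 * kc).factorial : ℕ) := by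
        exact_mod_cast Nat.dvd_factorial hp.pos hpk
      have hcong : ∀ i j, (p : ℤ) ∣ h i - h j := fun i j => hpM.trans (hgM _ _)
      by_cases h0 : ∃ i, (p : ℤ) ∣ h i
      · obtain ⟨i₀, hi₀⟩ := h0
        refine ⟨1, fun i hd => ?_⟩
        have h1 : (p : ℤ) ∣ h i := by
          have := (hcong i i₀).add hi₀
          simpa using this
        have h2 : (p : ℤ) ∣ ((P / a (cl4 i) : ℕ) : ℤ) := by
          have := (Int.dvd_add_left h1).1 hd
          simpa using this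
        have h3 : p ∣ P := by
          have : p ∣ P / a (cl4 i) := by exact_mod_cast h2
          exact this.trans (Nat.div_dvd_of_dvd (hdvdP _))
        obtain ⟨j, -, hj⟩ := (Prime.dvd_finsetProd_iff hp.prime _).mp h3
        exact hpcop i j ⟨by exact_mod_cast hj, h1⟩
      · push Not at h0
        refine ⟨0, fun i hd => h0 i ?_⟩
        simpa using hd
    · -- large primes: only the forms whose slope is not divisible by p matter
      obtain ⟨n, hn⟩ := F4_class (κ := {i : Fin (4 * kc) // ¬ p ∣ P / a (cl4 i)}) p hp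
        (lt_of_le_of_lt ((Fintype.card_subtype_le _).trans (by rw [Fintype.card_fin])) hpk)
        (fun i => P / a (cl4 i.1)) (fun i => h i.1) (fun i => i.2)
      refine ⟨n, fun i hd => ?_⟩
      by_cases hpi : p ∣ P / a (cl4 i)
      · have h1 : (p : ℤ) ∣ ((P / a (cl4 i) : ℕ) : ℤ) := by exact_mod_cast hpi
        have h2 : (p : ℤ) ∣ h i := (Int.dvd_add_right (h1.mul_right _)).1 hd
        obtain ⟨j, -, hj⟩ := (Prime.dvd_finsetProd_iff hp.prime _).mp
          (hpi.trans (Nat.div_dvd_of_dvd (hdvdP _)))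
        exact hpcop i j ⟨by exact_mod_cast hj, h2⟩
      · exact hn ⟨i, hpi⟩ hd
  have hall := hmain (fun i => P / a (cl4 i)) h hFpos hdet hadm
  obtain ⟨⟨i, j⟩, hinf⟩ := F4_pigeon (κ := Fin (4 * kc) × Fin (4 * kc))
    (fun q => {n : ℕ | cl4 q.1 ≠ cl4 q.2 ∧
      (((P / a (cl4 q.1) : ℕ) : ℤ) * n + h q.1).toNat.Prime ∧
      (((P / a (cl4 q.2) : ℕ) : ℤ) * n + h q.2).toNat.Prime}) (by
      intro N
      obtain ⟨n, hn, i, j, hij, hi, hj⟩ := hall N
      exact ⟨n, hn, (i, j), hij, hi, hj⟩)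
  have hcl' : cl4 i ≠ cl4 j := by
    obtain ⟨n, hn⟩ := hinf.nonempty
    exact hn.1
  have hij : i ≠ j := fun h0 => hcl' (by rw [h0])
  refine ⟨cl4 i, cl4 j, hcl', h i, hgH _, h j, hgH _, fun h0 => hne i j hij h0.symm, ?_⟩
  have hpos : ∀ (i : Fin (4 * kc)) (n : ℕ), (((P / a (cl4 i) : ℕ) : ℤ) * n + h i).toNat.Prime →
      (((((P / a (cl4 i) : ℕ) : ℤ) * n + h i).toNat : ℕ) : ℤ) = ((P / a (cl4 i) : ℕ) : ℤ) * n + h i := by
    intro i n hp
    refine Int.toNat_of_nonneg ?_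
    by_contra hc
    rw [Int.toNat_of_nonpos (not_le.1 hc).le] at hp
    exact Nat.not_prime_zero hp
  have hF : (((P / a (cl4 i) : ℕ) : ℤ)) ≠ 0 := by exact_mod_cast (hFpos i).ne'
  have himg := hinf.image (f := fun n : ℕ => ((((P / a (cl4 i) : ℕ) : ℤ) * n + h i).toNat,
    (((P / a (cl4 j) : ℕ) : ℤ) * n + h j).toNat)) (by
      intro n hn n' hn' heq
      have h1 := (Prod.ext_iff.1 heq).1
      simp only at h1
      have h2 := hpos i n hn.2.1
      have h3 := hpos i n' hn'.2.1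
      have h4 : ((P / a (cl4 i) : ℕ) : ℤ) * n + h i = ((P / a (cl4 i) : ℕ) : ℤ) * n' + h i := by
        rw [← h2, ← h3, h1]
      have h5 : ((P / a (cl4 i) : ℕ) : ℤ) * n = ((P / a (cl4 i) : ℕ) : ℤ) * n' := by linarith
      exact_mod_cast mul_left_cancel₀ hF h5)
  refine himg.mono ?_
  rintro _ ⟨n, hn, rfl⟩
  refine ⟨hn.2.1, hn.2.2, ?_⟩
  have h1 : (a (cl4 i) : ℤ) * ((P / a (cl4 i) : ℕ) : ℤ) = P := by exact_mod_cast hmul i
  have h2 : (a (cl4 j) : ℤ) * ((P / a (cl4 j) : ℕ) : ℤ) = P := by exact_mod_cast hmul j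
  have h3 := hpos i n hn.2.1
  have h4 := hpos j n hn.2.2
  simp only
  rw [h3, h4]
  linear_combination (n : ℤ) * h1 - (n : ℤ) * h2

end Pool.Agent.helper85.FD
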